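import Pool.Agent.URW.S5.Bnd

/-!
# URW S5/Pi (package, 0.9 h): the fine walk through a class from a touched hole to another one

`PiOk` is in `S5/Bnd.lean`.

PROOFS.
* `half`: let `q, q'` be as in `Tch p x` (`Cls p q`, `Adj q q'`, `x ∈ near q'`). `star_path` for `q'` (used, `used_of_adj`)
  gives a fine walk `q' :: l` to `io (inl x)` all of whose vertices have `x` near; `cls_walk` for `Cls p q` gives a fine walk
  `p :: l'` from `p` to `q` in the class. The walk `(p :: l') ++ (q' :: l)` (`List.isChain_append`). All vertices are used: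
  those of the class by `cls_ok`; those of `q' :: l`: `q'` is used, and each further one has a predecessor in the walk
  (`Srf.exists_prev` or induction on the chain; `used_of_adj`).
* `pi_exists`: the reverse of `half` for `x` and `half` for `y`; glue them at `p`: the reverse of `p :: l₁` is
  `l₁.reverse ++ [p]`, take `l₁.reverse ++ (p :: l₂)` (`List.isChain_append`, `List.isChain_reverse`, `adj_symm`).
-/

set_option autoImplicit false

namespace URW

variable {m : ℕ}

private theorem pi_used {k : ℕ} (hm : 100 ≤ m) : ∀ (l : List (Fine m k).V)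
    (a : (Fine m k).V), (Fine m k).Wlk (a :: l) → Used a → ∀ q ∈ a :: l, Used q
  | [], a, _, ha, q, hq => by
    rw [List.mem_singleton] at hq
    exact hq ▸ ha
  | b :: l, a, hw, ha, q, hq => by
    have h1 : (Fine m k).Adj a b ∧ List.IsChain (Fine m k).Adj (b :: l) :=
      List.isChain_cons_cons.1 hw
    rcases List.mem_cons.1 hq with rfl | hq
    · exact ha
    · exact pi_used hm l b h1.2 (used_of_adj hm h1.1).2 q hq

namespace Sys

variable {V : Type} [Group V] (X : Sys m V)

theorem half {p : (Fine m X.k).V} {x : Wm m} (ht : X.Tch p x) :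
    ∃ l : List (Fine m X.k).V, (Fine m X.k).Wlk (p :: l) ∧
      (p :: l).getLast? = some ((plane m).io X.k (Sum.inl x)) ∧
      ∀ q ∈ p :: l, Used q ∧ (x ∈ near q ∨ X.Cls p q) := by
  obtain ⟨hh, q, q', hc, hadj, hn⟩ := ht
  obtain ⟨l1, w1, e1, c1⟩ := X.cls_walk hc
  have hu := (used_of_adj X.hm100 hadj).2
  obtain ⟨l2, w2, e2, n2⟩ := star_path X.hm100 hu hn
  refine ⟨l1 ++ q' :: l2, ?_, ?_, ?_⟩
  · rw [← List.cons_append]
    refine List.IsChain.append w1 w2 ?_
    intro a ha b hb
    rw [e1] at ha
    simp only [Option.mem_def, Option.some.injEq] at ha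
    simp only [List.head?_cons, Option.mem_def, Option.some.injEq] at hb
    rw [← ha, ← hb]
    exact hadj
  · rw [← List.cons_append, List.getLast?_append, e2]
    rfl
  · intro r hr
    rw [← List.cons_append, List.mem_append] at hr
    rcases hr with hr | hr
    · have h1 := c1 r hr
      exact ⟨(X.cls_ok h1).2.1.1, Or.inr h1⟩
    · exact ⟨pi_used X.hm100 l2 q' w2 hu r hr, Or.inl (n2 r hr)⟩

theorem pi_exists {p : (Fine m X.k).V} {x y : Wm m} (ht : X.Tch p x) (ht' : X.Tch p y) :
    ∃ π : List (Fine m X.k).V, (Fine m X.k).Wlk π ∧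
      π.head? = some ((plane m).io X.k (Sum.inl x)) ∧
      π.getLast? = some ((plane m).io X.k (Sum.inl y)) ∧ ∀ q ∈ π, X.PiOk p x y q := by
  obtain ⟨l1, w1, e1, c1⟩ := X.half ht
  obtain ⟨l2, w2, e2, c2⟩ := X.half ht'
  have hsy : ∀ a b, (Fine m X.k).Adj a b → (Fine m X.k).Adj b a :=
    fun a b h => adj_symm X.hm100 h
  have w3 : (Fine m X.k).Wlk ((p :: l1).reverse) := by
    unfold Srf.Wlk
    rw [List.isChain_reverse]
    exact List.IsChain.imp (fun a b h => hsy a b h) w1
  have e3 : (p :: l1).reverse ++ l2 = l1.reverse ++ (p :: l2) := by simp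
  refine ⟨(p :: l1).reverse ++ l2, ?_, ?_, ?_, ?_⟩
  · refine List.IsChain.append w3 ?_ ?_
    · rcases l2 with _ | ⟨b, l2⟩
      · exact List.isChain_nil
      · exact (List.isChain_cons_cons.1 w2).2
    · intro a ha b hb
      rw [List.getLast?_reverse, List.head?_cons] at ha
      simp only [Option.mem_def, Option.some.injEq] at ha
      rcases l2 with _ | ⟨c, l2⟩
      · simp at hb
      · simp only [List.head?_cons, Option.mem_def, Option.some.injEq] at hb
        rw [← ha, ← hb]
        exact (List.isChain_cons_cons.1 w2).1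
  · rw [List.head?_append, List.head?_reverse, e1]
    rfl
  · rw [e3, List.getLast?_append, e2]
    rfl
  · intro q hq
    rw [e3, List.mem_append, List.mem_reverse] at hq
    rcases hq with hq | hq
    · obtain ⟨h1, h2⟩ := c1 q (List.mem_cons_of_mem _ hq)
      exact ⟨h1, h2.imp id Or.inl⟩
    · obtain ⟨h1, h2⟩ := c2 q hq
      exact ⟨h1, Or.inr h2.symm⟩

end Sys

end URW
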