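import Pool.Agent.URW.S5.Null
import Pool.Agent.URW.S5.Pi
import Pool.Agent.URW.B.Deep

/-!
# URW S5/Main: deep passes do not cross

`nc`: if `x` is deep on two chains with the labels `a, b` and `a', b'`, the pairs are not linked.
`sdeep_noncr`: the set of the deep darts is noncrossing.
-/

set_option autoImplicit false

namespace URW

variable {m : ℕ}

theorem lnk_ne {u v y z : Lab m} (h : Lnk u v y z) : u ≠ v := by
  rintro rfl
  have h6 : ∀ w, ¬ arc u u w := by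
    intro w hw
    have h7 := hw.2
    rw [sub_self, ZMod.val_zero] at h7
    exact absurd h7 (Nat.not_lt_zero _)
  rcases h.2.2.2.2 with h5 | h5
  · exact h6 _ h5.1
  · exact h6 _ h5.1

/-- Linked labels in the rotation at `x`. -/
theorem btw_lnk (hm : 100 ≤ m) {x : Wm m} {a b a' b' : Lab m} (h : Lnk a' b' a b) :
    ((plane m).Btw (Sum.inl x) (Sum.inl (x * sg b')) (Sum.inl (x * sg a')) (Sum.inl (x * sg a)) ∧
      ¬ (plane m).Btw (Sum.inl x) (Sum.inl (x * sg b')) (Sum.inl (x * sg a'))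
        (Sum.inl (x * sg b))) ∨
    ((plane m).Btw (Sum.inl x) (Sum.inl (x * sg b')) (Sum.inl (x * sg a')) (Sum.inl (x * sg b)) ∧
      ¬ (plane m).Btw (Sum.inl x) (Sum.inl (x * sg b')) (Sum.inl (x * sg a'))
        (Sum.inl (x * sg a))) := by
  have hne := lnk_ne h
  have hs := h.swap_left
  rw [btw_plane hm x b' a' a hne.symm h.2.1 h.1, btw_plane hm x b' a' b hne.symm h.2.2.2.1 h.2.2.1]
  split_ifs
  · exact hs.2.2.2.2
  · exact h.2.2.2.2

namespace Sys

variable {V : Type} [Group V] (X : Sys m V)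

/-- The data of a pass of a minimal chain through a deep vertex. -/
def Pass [Finite V] (x h₀ h : Wm m) (A B : List (List (Lab m))) (u v : List (Lab m))
    (a b : Lab m) : Prop :=
  X.Legit h₀ h ∧ X.MinCh h₀ h (A ++ ((u ++ [a]) ++ (b :: v)) :: B) ∧
    X.K3 ≤ (u ++ [a]).length ∧ X.K3 ≤ (b :: v).length ∧
    x = walk nW h₀ (A.flatten ++ (u ++ [a]))

variable [Finite V]

theorem nc {x h₀ h h₀' h' : Wm m} {A B A' B' : List (List (Lab m))} {u v u' v' : List (Lab m)}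
    {a b a' b' : Lab m} (H : X.Pass x h₀ h A B u v a b)
    (H' : X.Pass x h₀' h' A' B' u' v' a' b') : ¬ Lnk a' b' a b := by
  intro hL
  have hm : 100 ≤ m := X.hm100
  obtain ⟨⟨hne, p, hb, ht⟩, hM, hl1, hl2, hx⟩ := H
  obtain ⟨⟨hne', p', hb', ht'⟩, hM', hl1', hl2', hx'⟩ := H'
  obtain ⟨c1, c2, c3⟩ := X.deep_cone hne hM hl1 hl2 hx
  obtain ⟨c1', c2', c3'⟩ := X.deep_cone hne' hM' hl1' hl2' hx'
  obtain ⟨n1, n2, n3, n4, -⟩ := id hL
  have single : ∀ {s t : Lab m} {z : Wm m}, UWW.Ld z = {s} → UWW.Ld z = {t} → s = t := by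
    intro s t z h1 h2
    exact Set.singleton_injective (h1.symm.trans h2)
  have d1 : h₀' ≠ h₀ := by rintro rfl; exact n1 (single c1 c1')
  have d2 : h₀' ≠ h := by rintro rfl; exact n3 (single c2 c1')
  have d3 : h' ≠ h₀ := by rintro rfl; exact n2 (single c1 c2')
  have d4 : h' ≠ h := by rintro rfl; exact n4 (single c2 c2')
  have fl : ∀ (A B : List (List (Lab m))) (u v : List (Lab m)) (a b : Lab m),
      (A ++ ((u ++ [a]) ++ (b :: v)) :: B).flatten =
        ((A.flatten ++ u) ++ [a]) ++ (b :: (v ++ B.flatten)) := by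
    intro A B u v a b
    simp
  have hx1 : x = walk nW h₀ ((A.flatten ++ u) ++ [a]) := by rw [hx, List.append_assoc]
  have hx1' : x = walk nW h₀' ((A'.flatten ++ u') ++ [a']) := by rw [hx', List.append_assoc]
  obtain ⟨A₁, B₁, e1⟩ := pth_split (v := v ++ B.flatten) (b := b) hx1
  obtain ⟨A₁', B₁', e1'⟩ := pth_split (v := v' ++ B'.flatten) (b := b') hx1'
  rw [← fl] at e1 e1'
  obtain ⟨π, w1, w2, w3, w4⟩ := X.pi_exists hb.1 ht
  obtain ⟨π', w1', w2', w3', w4'⟩ := X.pi_exists hb'.1 ht'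
  have hend : walk nW h₀ (A ++ ((u ++ [a]) ++ (b :: v)) :: B).flatten = h := hM.1.2.2.1
  have hend' : walk nW h₀' (A' ++ ((u' ++ [a']) ++ (b' :: v')) :: B').flatten = h' :=
    hM'.1.2.2.1
  have H1 : h₀ ∈ X.HW := hb.1.1
  have H2 : h ∈ X.HW := ht.1
  have H1' : h₀' ∈ X.HW := hb'.1.1
  have H2' : h' ∈ X.HW := ht'.1
  have hsep : ∀ {g g' : Wm m} {q : (Fine m X.k).V}, g ∈ X.HW → g' ∈ X.HW → Used q →
      g ∈ near q → g' ∈ near q → g = g' := by
    intro g g' q hg hg' hq h1 h2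
    obtain ⟨r, hr⟩ := hq
    obtain ⟨w, i, hs⟩ := near_adj hm hr
    exact X.hole_sq hg hg' (hs (Or.inl h1)) (hs (Or.inl h2))
  refine Srf.noncrossing (S := plane m) (plane_good hm) (k := X.k) X.hk e1 e1'
    (pth_wlk hm _ _) (pth_wlk hm _ _) (pth_nodup (X.min_simple' hne hM))
    (pth_nodup (X.min_simple' hne' hM')) (pth_tri _ _) (pth_tri _ _) ?_ (btw_lnk hm hL)
    (pth_head _ _) (pth_last _ _) (pth_head _ _) (pth_last _ _) w1 w1' w2
    (by rw [hend]; exact w3) w2' (by rw [hend']; exact w3') ?_ ?_ ?_ ?_ ?_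
  · intro z hz hz'
    obtain ⟨q, hq, rfl⟩ := pth_mem.1 hz
    obtain ⟨q', hq', he⟩ := pth_mem.1 hz'
    have he' : walk nW h₀ q = walk nW h₀' q' := Sum.inl_injective he
    by_contra hc
    have hc' : walk nW h₀ q ≠ x := fun h1 => hc (by rw [h1])
    have s1 := c3 q hq hc'
    have s2 := c3' q' hq' (by rw [← he']; exact hc')
    rw [← he'] at s2
    rcases s1 with s1 | s1 <;> rcases s2 with s2 | s2
    · exact n1 (single s1 s2)
    · exact n2 (single s1 s2)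
    · exact n3 (single s1 s2)
    · exact n4 (single s1 s2)
  · intro q hq hq'
    obtain ⟨hu, k1⟩ := w4 q hq
    obtain ⟨-, k2⟩ := w4' q hq'
    rcases k1 with k1 | k1 | k1 <;> rcases k2 with k2 | k2 | k2
    · exact d1 (hsep H1' H1 hu k2 k1)
    · exact (X.cls_ok k2).2.1.2 _ k1 H1
    · exact d3 (hsep H2' H1 hu k2 k1)
    · exact (X.cls_ok k1).2.1.2 _ k2 H1'
    · have k3 : X.Cls p p' := X.cls_trans k1 (X.cls_symm k2)
      exact d1 (X.base_unique (X.base_cls hb' k3) hb)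
    · exact (X.cls_ok k1).2.1.2 _ k2 H2'
    · exact d2 (hsep H1' H2 hu k2 k1)
    · exact (X.cls_ok k2).2.1.2 _ k1 H2
    · exact d4 (hsep H2' H2 hu k2 k1)
  · exact X.null_main hM.1 H1' d1 d2 hb.1 w2 w3 w4
  · rw [hend']
    exact X.null_main hM.1 H2' d3 d4 hb.1 w2 w3 w4
  · exact X.null_main hM'.1 H1 d1.symm d3.symm hb'.1 w2' w3' w4'
  · rw [hend]
    exact X.null_main hM'.1 H2 d2.symm d4.symm hb'.1 w2' w3' w4'

/-- The labels of a forward pass. -/
private theorem run_lab {c : Wm m → Rot m} {y : Wm m} {u v : List (Lab m)} {a b : Lab m}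
    (h : RunFrom nW c y ((u ++ [a]) ++ (b :: v))) : b = a + (c (walk nW y (u ++ [a]))).1 := by
  have h1 : (u ++ [a]) ++ (b :: v) = u ++ (a :: b :: v) := by simp
  rw [h1] at h
  have h2 := (runFrom_append h).2
  have h3 := h2.1
  rw [h3, walk_append]
  rfl

theorem sdeep_data {s r : ℕ} {d : V × Lab m} (hd : d ∈ X.Sdeep s r) :
    ∃ (x h₀ h : Wm m) (A B : List (List (Lab m))) (u v : List (Lab m)) (a b : Lab m),
      X.Pass x h₀ h A B u v a b ∧ X.ρ x = d.1 ∧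
      ((a = d.2 - (X.c d.1).1 ∧ b = d.2) ∨ (a = d.2 ∧ b = d.2 - (X.c d.1).1)) := by
  obtain ⟨x, a, b, h1, h2⟩ := hd
  have hc : X.cW x = X.c d.1 := by rw [h1]; rfl
  rcases h2 with ⟨h2, h₀, h, A, B, u, v, k1, k2, -, k3, k4, -, k5, k6⟩ |
    ⟨h2, h₀, h, A, B, u, v, k1, k2, -, k3, k4, -, k5, k6⟩
  · refine ⟨x, h₀, h, A, B, u, v, a, b, ⟨k1, k2, k3, k4, k5⟩, h1.symm, Or.inl ⟨?_, h2.symm⟩⟩
    rcases k6 with ⟨-, k6⟩ | ⟨k6, -⟩
    · have k7 := run_lab k6
      rw [← walk_append, ← k5, hc] at k7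
      rw [h2, k7]
      ring
    · exact absurd trivial k6
  · refine ⟨x, h₀, h, A, B, u, v, a, b, ⟨k1, k2, k3, k4, k5⟩, h1.symm, Or.inr ⟨h2.symm, ?_⟩⟩
    rcases k6 with ⟨k6, -⟩ | ⟨-, k6⟩
    · exact k6.elim
    · have k7 := run_lab k6
      rw [← walk_append, ← k5, hc] at k7
      rw [h2, k7]
      change a + -(X.c d.1).1 = a - (X.c d.1).1
      ring

theorem pass_trk {g x h₀ h : Wm m} (hg : X.ρ g = 1) {A B : List (List (Lab m))}
    {u v : List (Lab m)} {a b : Lab m} (H : X.Pass x h₀ h A B u v a b) :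
    X.Pass (g * x) (g * h₀) (g * h) A B u v a b := by
  obtain ⟨k1, k2, k3, k4, k5⟩ := H
  exact ⟨X.legit_trk hg k1, X.min_trk hg k2, k3, k4, by rw [k5, walk_mul]⟩

/-- Section 5: the deep darts do not cross. -/
theorem sdeep_noncr (s r : ℕ) (S : Finset (V × Lab m)) (hS : (S : Set (V × Lab m)) = X.Sdeep s r) :
    NonCr X.c S := by
  intro v i j hi hj hij
  by_contra hcon
  rw [not_le] at hcon
  have hi' : (v, i) ∈ X.Sdeep s r := hS ▸ hi
  have hj' : (v, j) ∈ X.Sdeep s r := hS ▸ hj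
  obtain ⟨x, h₀, h, A, B, u, w, a, b, P, e, L⟩ := X.sdeep_data hi'
  obtain ⟨x', h₀', h', A', B', u', w', a', b', P', e', L'⟩ := X.sdeep_data hj'
  have hg : X.ρ (x * x'⁻¹) = 1 := by rw [map_mul, map_inv, e, e', mul_inv_cancel]
  have P'' := X.pass_trk hg P'
  rw [inv_mul_cancel_right] at P''
  have hn := X.nc P P''
  have hL : Lnk (j - (X.c v).1) j (i - (X.c v).1) i := lnk_of_cd hij hcon
  simp only at L L'
  rcases L with ⟨l1, l2⟩ | ⟨l1, l2⟩ <;> rcases L' with ⟨l1', l2'⟩ | ⟨l1', l2'⟩ <;>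
    rw [l1, l2, l1', l2'] at hn
  · exact hn hL
  · exact hn hL.swap_left
  · exact hn hL.swap_right
  · exact hn hL.swap_left.swap_right

end Sys

end URW
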