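import Pool.Agent.URW.S4.Lft
import Pool.Agent.URW.B.Tch

/-!
# URW S5/Alp (package, 0.7 h): the angle of a fine vertex seen from a hole `g`

`oth g q` is a chosen corner near `q` different from `g`, `alp g q` its angle, `bet g` the cochain of the small
differences (`lft` of `S4/Lft.lean`, a black box).

PROOFS.
* `oth_spec`: `Classical.epsilon_spec`.
* `oth_used`: otherwise `near q = {g}` (`near_nonempty`), and `near_eq_single` gives `q = io g`.
* `alp_sq`: `oth g q` is in the square by `oth_used`, then `ang_sq`.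
* `bet_swap`: `lft_swap`.
* `bet_tri`: `near_tri` gives a square containing everything near `p`, `q`, `r`; `x := oth g p` is in it and different
  from `g`; `alp_sq` for `p`, `q`, `r`, then `lft_tri` with `c = ang g x`, the radius `2` and `2 * 2 ≤ m`.
* `used_tri`: the vertices of a triangle are used (`used_of_adj`, `Good.rot` of `(plane_good hm).it k`).
-/

set_option autoImplicit false

namespace URW

variable {m k : ℕ}

/-- A corner near `q` different from `g`. -/
noncomputable def oth (g : Wm m) (q : (Fine m k).V) : Wm m :=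
  Classical.epsilon fun w => w ∈ near q ∧ w ≠ g

/-- The angle of `q` seen from `g`. -/
noncomputable def alp (g : Wm m) (q : (Fine m k).V) : Ang m := ang g (oth g q)

/-- The small differences of the angles. -/
noncomputable def bet (g : Wm m) (q q' : (Fine m k).V) : ℤ := lft (alp g q) (alp g q')

theorem oth_spec {g w : Wm m} {q : (Fine m k).V} (h : w ∈ near q) (hw : w ≠ g) :
    oth g q ∈ near q ∧ oth g q ≠ g := by
  exact Classical.epsilon_spec (p := fun w => w ∈ near q ∧ w ≠ g) ⟨w, h, hw⟩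

theorem oth_used (hm : 100 ≤ m) {g : Wm m} {q : (Fine m k).V} (h : Used q)
    (hq : q ≠ (plane m).io k (Sum.inl g)) : oth g q ∈ near q ∧ oth g q ≠ g := by
  obtain ⟨a, ha⟩ := near_nonempty hm h
  by_cases hex : ∃ w, w ∈ near q ∧ w ≠ g
  · obtain ⟨w, h1, h2⟩ := hex
    exact oth_spec h1 h2
  · exfalso
    apply hq
    refine near_eq_single hm h (Set.eq_singleton_iff_nonempty_unique_mem.2 ⟨⟨a, ha⟩, ?_⟩)
    intro w hw
    by_contra hne
    exact hex ⟨w, hw, hne⟩

theorem alp_sq (hm : 100 ≤ m) {g w x : Wm m} {i : Lab m} {q : (Fine m k).V} (hu : Used q)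
    (hq : q ≠ (plane m).io k (Sum.inl g)) (hs : near q ⊆ sqv nW w i) (hx : x ∈ sqv nW w i)
    (hxg : x ≠ g) : sm (alp g q - ang g x) ≤ 2 := by
  obtain ⟨h1, h2⟩ := oth_used hm hu hq
  exact ang_sq hm (hs h1) hx h2 hxg

theorem bet_swap (g : Wm m) (q q' : (Fine m k).V) : bet g q' q = -bet g q q' := by
  exact lft_swap _ _

theorem used_tri (hm : 100 ≤ m) {p q r : (Fine m k).V} (h : (Fine m k).T p q r) :
    Used p ∧ Used q ∧ Used r := by
  have h1 : (Fine m k).T q r p := ((plane_good hm).it k).rot p q r h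
  have h2 := used_of_adj hm (p := p) (q := q) ⟨r, h⟩
  have h3 := used_of_adj hm (p := q) (q := r) ⟨p, h1⟩
  exact ⟨h2.1, h2.2, h3.2⟩

theorem bet_tri (hm : 100 ≤ m) {g : Wm m} {p q r : (Fine m k).V} (h : (Fine m k).T p q r)
    (hp : p ≠ (plane m).io k (Sum.inl g)) (hq : q ≠ (plane m).io k (Sum.inl g))
    (hr : r ≠ (plane m).io k (Sum.inl g)) : bet g p q + bet g q r + bet g r p = 0 := by
  obtain ⟨u1, u2, u3⟩ := used_tri hm h
  obtain ⟨w, i, hs⟩ := near_tri hm h
  obtain ⟨h1, h2⟩ := oth_used hm u1 hp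
  have hx : oth g p ∈ sqv nW w i := hs (Or.inl (Or.inl h1))
  exact lft_tri (c := ang g (oth g p)) (r := 2)
    (alp_sq hm u1 hp (fun v hv => hs (Or.inl (Or.inl hv))) hx h2)
    (alp_sq hm u2 hq (fun v hv => hs (Or.inl (Or.inr hv))) hx h2)
    (alp_sq hm u3 hr (fun v hv => hs (Or.inr hv)) hx h2) (by omega)

end URW
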