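import Pool.Agent.URW.S5.Alp
import Pool.Agent.URW.B.Min

/-!
# URW S5/Bnd (package, 1.2 h): bounds for the angles on the chain and on the fine walk

`pth x D` is the walk of the plane with the labels `D` from `x`. `PiOk p x y q`: the fine vertex `q` is used and the hole
`x` is near `q` or `q` is in the class of `p` or the hole `y` is near `q`.

PROOFS.
* `sdk_near`: `Srf.mem_sdk`: the carrier of `q` is `{a}` or `{a, b}` with `a, b` in `pth x D`, so all its elements are
  `inl z`, `z ∈ scanl` (`List.mem_map`), and `near q` is the union of the `cor (inl z) = {z}`.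
* `io_sdk`: otherwise `near (io g) = {g}` (`near_io`) and `sdk_near` give `g ∈ scanl`.
* `hch_avoid`: `Hch`: if `p = []` the vertex is `x`, if `p = ds.flatten` it is `y`, otherwise it is not in `HW`.
* `bnd_sdk`: `sdk_near` gives `z ∈ near q` on the chain, `z ≠ g` by `hch_avoid` (`mem_scanl`), so `oth g q ∈ near q` by
  `oth_spec`, so `oth g q = walk nW x p` with `p <+: ds.flatten`; `ang_chn` and `ds.length ≤ K2`.
* `io_pi`: `near (io g) = {g}`: `x ∈ near` gives `x = g`, the same for `y`; `Cls p (io g)` gives `Ok (io g)` (`cls_ok`), so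
  `g ∉ HW`.
* `bnd_pi`: by `io_pi` `q ≠ io g`. If `x ∈ near q`: `q` is used, so `near q` is in a square (`near_adj`), `alp_sq`: `≤ 2`. If
  `y ∈ near q`: `sm (alp g q - ang g y) ≤ 2` and `sm (ang g y - ang g x) ≤ K2` (`ang_chn` for the whole chain,
  `hch_avoid`), `sm_triangle`. If `Cls p q`: `Tch q x` (`tch_cls`, `cls_symm`), `tch_con` with `a = oth g q ∈ near q`
  (`oth_used`) and `ang_con` (`g ∈ HW \ {x}`): `≤ k1 + 2 ≤ K2 + 2` (`sm_sub_comm`).
-/

set_option autoImplicit false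

namespace URW

variable {m k : ℕ}

/-- The walk of the plane with the labels `D` from `x`. -/
def pth (x : Wm m) (D : List (Lab m)) : List (plane m).V := (D.scanl nW x).map Sum.inl

theorem sdk_near {x : Wm m} {D : List (Lab m)} {q : (Fine m k).V}
    (hq : q ∈ (plane m).sdk k (pth x D)) :
    (near q).Nonempty ∧ ∀ z ∈ near q, z ∈ D.scanl nW x := by
  have key : ∀ a ∈ pth x D, ∃ z ∈ D.scanl nW x, a = Sum.inl z := by
    intro a ha
    obtain ⟨z, hz, rfl⟩ := List.mem_map.1 ha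
    exact ⟨z, hz, rfl⟩
  have h1 : ∀ a ∈ (plane m).car k q, a ∈ pth x D := by
    intro a ha
    rcases Srf.mem_sdk k hq with ⟨y, hy, hc⟩ | ⟨A, y, z, B, hl, hc⟩
    · rw [hc] at ha
      rw [Set.mem_singleton_iff.1 ha]
      exact hy
    · rw [hc] at ha
      rw [hl]
      rcases ha with rfl | ha
      · simp
      · rw [Set.mem_singleton_iff.1 ha]
        simp
  constructor
  · obtain ⟨a, ha⟩ := Srf.car_nonempty k q
    obtain ⟨z, hz, rfl⟩ := key a (h1 a ha)
    exact ⟨z, _, ha, rfl⟩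
  · rintro z ⟨a, ha, hz⟩
    obtain ⟨w, hw, rfl⟩ := key a (h1 a ha)
    have h2 : z = w := hz
    rw [h2]
    exact hw

theorem io_sdk {g x : Wm m} {D : List (Lab m)} (hg : g ∉ D.scanl nW x) :
    (plane m).io k (Sum.inl g) ∉ (plane m).sdk k (pth x D) := by
  intro h
  exact hg ((sdk_near h).2 g (by rw [near_io]; rfl))

namespace Sys

variable {V : Type} [Group V] (X : Sys m V)

/-- The vertices of the fine walk from `x` to `y` through the class of `p`. -/
def PiOk (p : (Fine m X.k).V) (x y : Wm m) (q : (Fine m X.k).V) : Prop :=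
  Used q ∧ (x ∈ near q ∨ X.Cls p q ∨ y ∈ near q)

theorem hch_avoid {x y g : Wm m} {ds : List (List (Lab m))} (h : X.Hch x y ds)
    (hg : g ∈ X.HW) (hx : g ≠ x) (hy : g ≠ y) :
    ∀ p, p <+: ds.flatten → walk nW x p ≠ g := by
  intro p hp hc
  by_cases h1 : p = []
  · rw [h1, walk_nil] at hc
    exact hx hc.symm
  by_cases h2 : p = ds.flatten
  · rw [h2, h.2.2.1] at hc
    exact hy hc.symm
  · exact h.2.2.2 p hp h1 h2 (hc ▸ hg)

theorem bnd_sdk {x y g : Wm m} {ds : List (List (Lab m))} (h : X.Hch x y ds)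
    (hg : g ∈ X.HW) (hx : g ≠ x) (hy : g ≠ y) {q : (Fine m X.k).V}
    (hq : q ∈ (plane m).sdk X.k (pth x ds.flatten)) :
    sm (alp g q - ang g x) ≤ X.K2 + 2 := by
  obtain ⟨⟨z, hz⟩, h1⟩ := sdk_near hq
  have hav := X.hch_avoid h hg hx hy
  have hzg : z ≠ g := by
    obtain ⟨p, hp, rfl⟩ := mem_scanl.1 (h1 z hz)
    exact hav p hp
  obtain ⟨p, hp, he⟩ := mem_scanl.1 (h1 _ (oth_spec hz hzg).1)
  have h4 := ang_chn X.hm100 h.2.1 hav p hp
  have h5 := h.1
  unfold alp
  rw [he]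
  omega

theorem io_pi {x y g : Wm m} (hg : g ∈ X.HW) (hx : g ≠ x) (hy : g ≠ y)
    {p : (Fine m X.k).V} : ¬ X.PiOk p x y ((plane m).io X.k (Sum.inl g)) := by
  rintro ⟨-, h1 | h1 | h1⟩
  · rw [near_io] at h1
    exact hx (Set.mem_singleton_iff.1 h1).symm
  · exact (X.cls_ok h1).2.1.2 g (by rw [near_io]; rfl) hg
  · rw [near_io] at h1
    exact hy (Set.mem_singleton_iff.1 h1).symm

theorem bnd_pi {x y g : Wm m} {ds : List (List (Lab m))} (h : X.Hch x y ds)
    (hg : g ∈ X.HW) (hx : g ≠ x) (hy : g ≠ y) {p q : (Fine m X.k).V} (ht : X.Tch p x)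
    (hq : X.PiOk p x y q) : sm (alp g q - ang g x) ≤ X.K2 + 2 := by
  have hne : q ≠ (plane m).io X.k (Sum.inl g) := by
    intro h1
    rw [h1] at hq
    exact X.io_pi hg hx hy hq
  obtain ⟨r, hr⟩ := id hq.1
  obtain ⟨w, i, hs⟩ := near_adj X.hm100 hr
  have hs' : near q ⊆ sqv nW w i := fun v hv => hs (Or.inl hv)
  rcases hq.2 with h1 | h1 | h1
  · have h2 := alp_sq X.hm100 hq.1 hne hs' (hs' h1) hx.symm
    omega
  · have h2 := X.tch_con (X.tch_cls ht (X.cls_symm h1)) (oth_used X.hm100 hq.1 hne).1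
    have h6 : g ∈ X.HW \ {x} := ⟨hg, hx⟩
    have h3 := ang_con X.hm100 h6 h2
    rw [sm_sub_comm] at h3
    have h4 : X.K2 = X.k1 + 4 := rfl
    unfold alp
    omega
  · have h2 := alp_sq X.hm100 hq.1 hne hs' (hs' h1) hy.symm
    have h3 := ang_chn X.hm100 h.2.1 (X.hch_avoid h hg hx hy) _ (List.prefix_refl _)
    rw [h.2.2.1] at h3
    have h4 := h.1
    have h5 := sm_triangle (alp g q) (ang g y) (ang g x)
    omega

end Sys

end URW
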