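import Pool.Agent.URW.S5.Bnd

/-!
# URW S5/Pth (package, 0.7 h): the walk of the plane with given labels

`pth x D = (D.scanl nW x).map Sum.inl` (in `S5/Bnd.lean`).

PROOFS.
* `pth_wlk`: induction on `D`: `pth x (i :: D) = inl x :: pth (x * sg i) D`, `adj_edge`; `pth y D` starts with `inl y`.
* `pth_head`, `pth_last`: `List.scanl_cons`; induction on `D`.
* `pth_nodup`: `List.Nodup.map Sum.inl_injective`.
* `pth_tri`: `T_not_inl`: one vertex of a triangle is `inr s`, but the elements of `pth` are `inl`.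
* `pth_mem`: `List.mem_map`, `mem_scanl` (`B/Min.lean`).
* `pth_split`: induction on `l`; or: `scanl` of an append. With `x = walk nW h₀ (l ++ [a])`: the vertex before `x` is
  `walk nW h₀ l = x * sg a` (`walk nW h₀ (l ++ [a]) = walk nW h₀ l * sg a`, `UWW.mul_s_mul_s`), the one after it `x * sg b`.
  It is convenient to prove first by induction on `l`: `pth h₀ (l ++ r) = A ++ pth (walk nW h₀ l) r` for some `A`, and
  `pth z (a :: b :: v) = inl z :: inl (z * sg a) :: inl (z * sg a * sg b) :: B`.
-/

set_option autoImplicit false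

namespace URW

variable {m : ℕ}

private theorem pth_nil (x : Wm m) : pth x [] = ([Sum.inl x] : List (plane m).V) := by
  rfl

private theorem pth_cons (x : Wm m) (i : Lab m) (D : List (Lab m)) :
    pth x (i :: D) = (Sum.inl x :: pth (x * sg i) D : List (plane m).V) := by
  unfold pth
  rw [List.scanl_cons, List.map_cons]
  rfl

private theorem pth_start (x : Wm m) (D : List (Lab m)) :
    ∃ R : List (plane m).V, pth x D = (Sum.inl x :: R : List (plane m).V) := by
  cases D with
  | nil => exact ⟨[], rfl⟩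
  | cons i D => exact ⟨_, pth_cons x i D⟩

theorem pth_wlk (hm : 100 ≤ m) (x : Wm m) (D : List (Lab m)) : (plane m).Wlk (pth x D) := by
  induction D generalizing x with
  | nil => exact List.isChain_singleton _
  | cons i D ih =>
    obtain ⟨R, hR⟩ := pth_start (x * sg i) D
    have h1 := ih (x * sg i)
    rw [pth_cons]
    rw [hR] at h1 ⊢
    exact List.isChain_cons_cons.2 ⟨adj_edge hm x i, h1⟩

theorem pth_head (x : Wm m) (D : List (Lab m)) : (pth x D).head? = some (Sum.inl x) := by
  obtain ⟨R, hR⟩ := pth_start x D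
  rw [hR]
  rfl

theorem pth_last (x : Wm m) (D : List (Lab m)) :
    (pth x D).getLast? = some (Sum.inl (walk nW x D)) := by
  induction D generalizing x with
  | nil => rfl
  | cons i D ih =>
    obtain ⟨R, hR⟩ := pth_start (x * sg i) D
    have h1 := ih (x * sg i)
    rw [pth_cons, walk_cons]
    rw [hR] at h1 ⊢
    rw [List.getLast?_cons_cons]
    exact h1

theorem pth_nodup {x : Wm m} {D : List (Lab m)} (h : (D.scanl nW x).Nodup) :
    (pth x D).Nodup := by
  exact h.map Sum.inl_injective

theorem pth_tri (x : Wm m) (D : List (Lab m)) (u v w : (plane m).V) (h : (plane m).T u v w)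
    (hu : u ∈ pth x D) (hv : v ∈ pth x D) (hw : w ∈ pth x D) : False := by
  have key : ∀ (z : (plane m).V) (s : Set (Wm m)), z ∈ pth x D → z ≠ Sum.inr s := by
    intro z s hz he
    obtain ⟨y, -, hy⟩ := List.mem_map.1 hz
    rw [← hy] at he
    cases he
  obtain ⟨s, hs | hs | hs⟩ := T_not_inl h
  · exact key u s hu hs
  · exact key v s hv hs
  · exact key w s hw hs

theorem pth_mem {x : Wm m} {D : List (Lab m)} {z : (plane m).V} :
    z ∈ pth x D ↔ ∃ p, p <+: D ∧ z = Sum.inl (walk nW x p) := by
  constructor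
  · intro hz
    obtain ⟨y, hy, hyz⟩ := List.mem_map.1 hz
    obtain ⟨p, hp, hpy⟩ := Sys.mem_scanl.1 hy
    exact ⟨p, hp, by rw [← hyz, hpy]⟩
  · rintro ⟨p, hp, rfl⟩
    exact List.mem_map.2 ⟨walk nW x p, Sys.mem_scanl.2 ⟨p, hp, rfl⟩, rfl⟩

private theorem pth_append (x : Wm m) (l r : List (Lab m)) :
    ∃ A : List (plane m).V, pth x (l ++ r) = (A ++ pth (walk nW x l) r : List (plane m).V) := by
  induction l generalizing x with
  | nil => exact ⟨[], rfl⟩
  | cons i l ih =>
    obtain ⟨A, hA⟩ := ih (x * sg i)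
    refine ⟨Sum.inl x :: A, ?_⟩
    rw [List.cons_append, pth_cons, hA, walk_cons]
    rfl

theorem pth_split {h₀ x : Wm m} {l v : List (Lab m)} {a b : Lab m}
    (hx : x = walk nW h₀ (l ++ [a])) :
    ∃ A B : List (plane m).V, pth h₀ ((l ++ [a]) ++ (b :: v)) =
      A ++ ((Sum.inl (x * sg a) :: Sum.inl x :: Sum.inl (x * sg b) :: B :
        List (plane m).V)) := by
  obtain ⟨A, hA⟩ := pth_append h₀ l (a :: b :: v)
  obtain ⟨B, hB⟩ := pth_start (x * sg b) v
  have h1 : x = walk nW h₀ l * sg a := by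
    rw [hx, walk_append]
    rfl
  have h2 : x * sg a = walk nW h₀ l := by
    rw [h1]
    exact UWW.mul_s_mul_s a _
  refine ⟨A, B, ?_⟩
  have h3 : (l ++ [a]) ++ (b :: v) = l ++ (a :: b :: v) := by simp
  rw [h3, hA, h2, pth_cons, pth_cons, ← h1, hB]

end URW
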