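import Pool.Agent.URW.S5.RngB
import Pool.Agent.URW.S5.Bnd
import Pool.Agent.URW.S5.Pth

/-!
# URW S5/Null: the closed walk consisting of a chain and of a fine walk through a class does not wind around
other holes

PROOF of `null_main`: `b = bet g`; antisymmetric by `bet_swap`, closed by `bet_tri`, the sum around `io g` is not `0` by
`rng_sum`. Both walks go from `io x` to `io y` and all angles are within `K2 + 2` of `ang g x` (`bnd_sdk`, `bnd_pi`), so
both sums are equal by `wsum_lft`.
-/

set_option autoImplicit false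

namespace URW

variable {m : ℕ}

namespace Sys

variable {V : Type} [Group V] (X : Sys m V)

theorem null_main {x y g : Wm m} {ds : List (List (Lab m))} (h : X.Hch x y ds)
    (hg : g ∈ X.HW) (hx : g ≠ x) (hy : g ≠ y) {p : (Fine m X.k).V} (ht : X.Tch p x)
    {π : List (Fine m X.k).V} (f₀ : π.head? = some ((plane m).io X.k (Sum.inl x)))
    (f₁ : π.getLast? = some ((plane m).io X.k (Sum.inl y))) (hπ : ∀ q ∈ π, X.PiOk p x y q) :
    (Fine m X.k).NullAt ((plane m).io X.k (Sum.inl g))
      ((plane m).sdk X.k (pth x ds.flatten)) π := by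
  have hm : 100 ≤ m := X.hm100
  have hr : 2 * (X.K2 + 2) ≤ m := by
    have h1 := X.hm
    unfold K2
    omega
  have hend : walk nW x ds.flatten = y := h.2.2.1
  refine ⟨?_, fun hc => X.io_pi hg hx hy (hπ _ hc), bet g, bet_swap g, ?_, rng_sum hm X.hk g, ?_⟩
  · refine io_sdk fun hc => ?_
    obtain ⟨q, hq, he⟩ := mem_scanl.1 hc
    exact X.hch_avoid h hg hx hy q hq he.symm
  · exact fun p q r hT hp hq hr => bet_tri hm hT hp hq hr
  · have e1 : Srf.wsum (bet g) ((plane m).sdk X.k (pth x ds.flatten)) = _ :=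
      wsum_lft (alp g) (ang g x) hr ((plane m).sdk X.k (pth x ds.flatten))
        (x := (plane m).io X.k (Sum.inl x)) (y := (plane m).io X.k (Sum.inl y))
        (by rw [Srf.head_sdk, pth_head]; rfl) (by rw [Srf.last_sdk, pth_last, hend]; rfl)
        (fun q hq => X.bnd_sdk h hg hx hy hq)
    have e2 : Srf.wsum (bet g) π = _ :=
      wsum_lft (alp g) (ang g x) hr π f₀ f₁ (fun q hq => X.bnd_pi h hg hx hy ht (hπ q hq))
    rw [e1, e2]

end Sys

end URW
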