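import Pool.Agent.URW.S5.Alp

/-!
# URW S5/RngA (package, 1 h): the angles on the fine link of a vertex `g` of the group

`E i = dir k (inl g) (inl (g * sg i))`, `C i = dir k (inl g) (inr (sqv nW g i))` are the fine neighbours of `io g`.

PROOFS (`k ≥ 1`, so `car_dir`: the carrier of `dir k x y` is `{x, y}`; `near q` = the union of `cor a`, `a ∈ car q`).
* `near_E`: `near (E i) = {g, g * sg i}`. So `oth g (E i) = g * sg i` (`oth_spec` with `w = g * sg i ≠ g`, `sg_ne_one`), and
  `ang g (g * sg i) = th (sg i) = dbl i` (`th_single`; `Ld (sg i) = {i}` is `Ld_nice` for the word `[i]`, `UWW.pr_cons`,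
  `UWW.pr_nil`).
* `near_C`: `near (C i) = {g} ∪ sqv nW g i = sqv nW g i = {g, g s_i, g s_{i+1}, g s_i s_{i+1}}` (`sqv_eq`). So
  `oth g (C i)` is one of the three others, with angles `dbl i`, `dbl (i + 1) = dbl i + 2` (`dbl_add`, `dbl_one`), and
  `th (s_i s_{i+1}) = dbl i + 1` (`th_pair`; `Ld (s_i s_{i+1}) = {i, i + 1}`: `i ∈ Ld` and `i + 1 ∈ Ld` as
  `s_i s_{i+1} = s_{i+1} s_i` (`sg_comm`) has length `2` (`len_sgsg`) and `s_i (s_i s_{i+1}) = s_{i+1}` has length `1`; by
  `Ld_cases` a set `{j}` or `{j, j + 1}` containing `i`, `i + 1` is `{i, i + 1}` (`j + 1 = i`, `j = i + 1` gives `2 = 0`,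
  `cd_two`); or use `th_of_mem`, `th_square`, ...).
* `bet_two`: let `t ≤ 2` be as in `alp_C`. `lft_near` with `c = dbl i`, radius `2`: the first summand is
  `(t : Ang m).valMinAbs - (0 : Ang m).valMinAbs`, the second `(2 : Ang m).valMinAbs - (t : Ang m).valMinAbs`; the sum is
  `(2 : Ang m).valMinAbs - 0 = 2` (no need to compute the middle term; `ZMod.valMinAbs_spec`); `sm (t : Ang m) ≤ 2` for
  `t ≤ 2` (`sm_one`, `sm_add_le`, `sm_zero`).
-/

set_option autoImplicit false

namespace URW

variable {m k : ℕ}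

/-- The fine neighbour of `g` on the edge `i`. -/
noncomputable def fE (k : ℕ) (g : Wm m) (i : Lab m) : (Fine m k).V :=
  (plane m).dir k (Sum.inl g) (Sum.inl (g * sg i))

/-- The fine neighbour of `g` in the square `i`. -/
noncomputable def fC (k : ℕ) (g : Wm m) (i : Lab m) : (Fine m k).V :=
  (plane m).dir k (Sum.inl g) (Sum.inr (sqv nW g i))

private theorem near_dir (hk : 1 ≤ k) (x y : (plane m).V) :
    near ((plane m).dir k x y) = cor x ∪ cor y := by
  ext w
  unfold near
  rw [Set.mem_ofPred_eq]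
  have h := Srf.car_dir (S := plane m) k hk x y
  constructor
  · rintro ⟨a, ha, hw⟩
    rw [h] at ha
    rcases ha with ha | ha
    · left
      rw [← ha]
      exact hw
    · right
      have ha' : a = y := ha
      rw [← ha']
      exact hw
  · rintro (hw | hw)
    · refine ⟨x, ?_, hw⟩
      rw [h]
      exact Or.inl rfl
    · refine ⟨y, ?_, hw⟩
      rw [h]
      exact Or.inr rfl

theorem near_E (hk : 1 ≤ k) (g : Wm m) (i : Lab m) : near (fE k g i) = {g, g * sg i} := by
  unfold fE
  rw [near_dir hk]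
  change ({g} : Set (Wm m)) ∪ {g * sg i} = {g, g * sg i}
  rw [Set.singleton_union]

theorem near_C (hk : 1 ≤ k) (g : Wm m) (i : Lab m) : near (fC k g i) = sqv nW g i := by
  unfold fC
  rw [near_dir hk]
  change ({g} : Set (Wm m)) ∪ sqv nW g i = sqv nW g i
  rw [Set.singleton_union]
  refine Set.insert_eq_of_mem ?_
  rw [sqv_eq]
  exact Or.inl rfl

private theorem Ld_sg' (hm : 100 ≤ m) (i : Lab m) : UWW.Ld (sg i : Wm m) = {i} := by
  have h : NiceW [i] := List.isChain_singleton _
  have h1 := Ld_nice hm h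
  rw [UWW.pr_cons, UWW.pr_nil, mul_one] at h1
  exact h1

private theorem mul_sg_ne (g : Wm m) (i : Lab m) : g * sg i ≠ g := by
  intro h
  exact sg_ne_one i (mul_eq_left.1 h)

theorem alp_E (hm : 100 ≤ m) (hk : 1 ≤ k) (g : Wm m) (i : Lab m) :
    alp g (fE k g i) = dbl i := by
  have h0 : g * sg i ∈ near (fE k g i) := by
    rw [near_E hk]
    exact Or.inr rfl
  obtain ⟨h1, h2⟩ := oth_spec h0 (mul_sg_ne g i)
  rw [near_E hk] at h1
  rcases h1 with h1 | h1
  · exact absurd h1 h2
  · have h3 : oth g (fE k g i) = g * sg i := h1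
    unfold alp ang
    rw [h3, inv_mul_cancel_left]
    exact th_single hm (Ld_sg' hm i)

private theorem Ld_two (hm : 100 ≤ m) (i : Lab m) :
    UWW.Ld (sg i * sg (i + 1) : Wm m) = {i, i + 1} := by
  have l2 := len_sgsg hm i
  have l1 : ∀ j : Lab m, UWW.len (sg j : Wm m) ≤ 1 := by
    intro j
    have h := UWW.len_pr_le (c := cm m) [j]
    rw [UWW.pr_cons, UWW.pr_nil, mul_one] at h
    exact h
  have m1 : i ∈ UWW.Ld (sg i * sg (i + 1) : Wm m) := by
    change UWW.len (UWW.s (cm m) i * (sg i * sg (i + 1))) < UWW.len (sg i * sg (i + 1) : Wm m)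
    rw [UWW.s_mul_s_mul, l2]
    have := l1 (i + 1)
    omega
  have m2 : i + 1 ∈ UWW.Ld (sg i * sg (i + 1) : Wm m) := by
    change UWW.len (UWW.s (cm m) (i + 1) * (sg i * sg (i + 1))) <
      UWW.len (sg i * sg (i + 1) : Wm m)
    rw [l2, sg_comm, UWW.s_mul_s_mul]
    have := l1 i
    omega
  have hne : i + 1 ≠ i := by
    intro h
    have h1 : (1 : Lab m) = 0 := add_eq_left.1 h
    have h2 := cd_one' hm
    rw [h1, cd_zero] at h2
    omega
  have h1 : (sg i * sg (i + 1) : Wm m) ≠ 1 := by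
    intro h
    rw [h, UWW.len_one] at l2
    omega
  rcases Ld_cases hm h1 with ⟨j, hj⟩ | ⟨j, hj⟩
  · rw [hj, Set.mem_singleton_iff] at m1 m2
    exact absurd (m2.trans m1.symm) hne
  · have e : j = i := by
      rw [hj] at m1 m2
      rcases m1 with m1 | m1
      · exact m1.symm
      · have m1' : i = j + 1 := m1
        exfalso
        rcases m2 with m2 | m2
        · have h3 : (2 : Lab m) = 0 := by
            have h4 : j + 2 = j := by
              have h6 : j + 2 = j + 1 + 1 := by ring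
              rw [h6, ← m1']
              exact m2
            exact add_eq_left.1 h4
          have h5 := cd_two (m := m) hm
          rw [h3, cd_zero] at h5
          exact absurd h5 (by norm_num)
        · exact hne ((show i + 1 = j + 1 from m2).trans m1'.symm)
    rw [hj, e]

theorem alp_C (hm : 100 ≤ m) (hk : 1 ≤ k) (g : Wm m) (i : Lab m) :
    ∃ t : ℕ, t ≤ 2 ∧ alp g (fC k g i) = dbl i + t := by
  have h0 : g * sg i ∈ near (fC k g i) := by
    rw [near_C hk, sqv_eq]
    exact Or.inr (Or.inl rfl)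
  obtain ⟨h1, h2⟩ := oth_spec h0 (mul_sg_ne g i)
  rw [near_C hk, sqv_eq] at h1
  unfold alp ang
  rcases h1 with h1 | h1 | h1 | h1
  · exact absurd h1 h2
  · refine ⟨0, by omega, ?_⟩
    rw [h1, inv_mul_cancel_left, th_single hm (Ld_sg' hm i)]
    simp
  · refine ⟨2, by omega, ?_⟩
    rw [h1, inv_mul_cancel_left, th_single hm (Ld_sg' hm (i + 1)), dbl_add, dbl_one hm]
    simp
  · refine ⟨1, by omega, ?_⟩
    have h3 : oth g (fC k g i) = g * (sg i * sg (i + 1)) := by
      rw [← mul_assoc]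
      exact h1
    rw [h3, inv_mul_cancel_left, th_pair hm (Ld_two hm i)]
    simp

theorem bet_two (hm : 100 ≤ m) (hk : 1 ≤ k) (g : Wm m) (i : Lab m) :
    bet g (fE k g i) (fC k g i) + bet g (fC k g i) (fE k g (i + 1)) = 2 := by
  obtain ⟨t, ht, h1⟩ := alp_C hm hk g i
  have h2 := alp_E hm hk g i
  have h3 := alp_E hm hk g (i + 1)
  rw [dbl_add, dbl_one hm] at h3
  have s0 := sm_zero (m := m)
  have s1 := sm_one (m := m)
  have st : sm ((t : ℕ) : Ang m) ≤ 2 := by
    interval_cases t
    · rw [Nat.cast_zero, s0]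
      omega
    · rw [Nat.cast_one]
      omega
    · have e : ((2 : ℕ) : Ang m) = 1 + 1 := by norm_num
      rw [e]
      have := sm_add_le (1 : Ang m) 1
      omega
  have s2 : sm (2 : Ang m) ≤ 2 := by
    have e : (2 : Ang m) = 1 + 1 := by norm_num
    rw [e]
    have := sm_add_le (1 : Ang m) 1
    omega
  have a0 : sm (dbl i - dbl i) ≤ 2 := by
    rw [sub_self, s0]
    omega
  have at' : sm (dbl i + (t : Ang m) - dbl i) ≤ 2 := by
    rw [add_sub_cancel_left]
    exact st
  have a2 : sm (dbl i + 2 - dbl i) ≤ 2 := by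
    rw [add_sub_cancel_left]
    exact s2
  unfold bet
  rw [h1, h2, h3, lft_near a0 at' (by omega), lft_near at' a2 (by omega)]
  rw [add_sub_cancel_left, add_sub_cancel_left, sub_self, ZMod.valMinAbs_zero]
  have v2 : (2 : Ang m).valMinAbs = 2 := by
    rw [ZMod.valMinAbs_spec]
    refine ⟨?_, ?_, ?_⟩
    · norm_num
    · push_cast
      omega
    · push_cast
      omega
  rw [v2]
  ring

end URW
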