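import Pool.Agent.URW.S5.RngA

/-!
# URW S5/RngB (package, 1 h): the sum of `bet g` around `g` is not zero

PROOFS.
* `finsum_ring`: the map `φ : Lab m × Bool → X × X`, `(i, false) ↦ (a i, b i)`, `(i, true) ↦ (b i, a (i + 1))` is injective
  (`ha`, `hb`, `hab`) with range `{p | T p.1 p.2}`. So the sum is `∑ᶠ p ∈ Set.range φ, f p.1 p.2`
  (`finsum_mem_range`) `= ∑ᶠ x, f (φ x).1 (φ x).2 = ∑ i, (f (a i) (b i) + f (b i) (a (i + 1)))`
  (`finsum_eq_sum_of_fintype`, `Fintype.sum_prod_type`, `Fintype.sum_bool`) `= ∑ i, 2 = 2 * (8 m + 1)` (`ZMod.card`,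
  `Finset.sum_const`).
* `finsum_ring'`: for the reversed ring: `f' x y = f y x`, `T' x y = T y x` and the bijection `Prod.swap` of `X × X`
  (`finsum_comp_equiv (Equiv.prodComm X X)`), then `finsum_ring`. (Or directly with `φ` replaced by `Prod.swap ∘ φ`.)
* `T_io`: `link_io` with `S = plane m`, `x = inl g`, and `T_inl`.
* `rng_sum`: `a = fE k g`, `b = fC k g`; injectivity: `dir_inj` with `(plane_good hm)`, the adjacency `adj_edge`,
  `adj_centre` (`g ∈ sqv nW g i`, `sqv_eq`), `Sum.inl_injective`, `Sum.inr_injective`, `sg_inj`, `sq_inj`, `mul_left_cancel`;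
  `a i ≠ b j`: `dir_inj` and `Sum.inl_ne_inr`. For even `g` `finsum_ring` with `f = bet g`, `bet_two`: the sum is
  `2 (8 m + 1)`. For odd `g` `finsum_ring'` with `f = bet g`: the hypothesis is `f (b i) (a i) + f (a (i + 1)) (b i) = -2`,
  by `bet_swap` and `bet_two`.
-/

set_option autoImplicit false

namespace URW

variable {m k : ℕ}

theorem finsum_ring {X : Type} (T : X → X → Prop) (a b : Lab m → X)
    (ha : Function.Injective a) (hb : Function.Injective b) (hab : ∀ i j, a i ≠ b j)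
    (hT : ∀ p q, T p q ↔ ∃ i, (p = a i ∧ q = b i) ∨ (p = b i ∧ q = a (i + 1)))
    (f : X → X → ℤ) (z : ℤ) (hf : ∀ i, f (a i) (b i) + f (b i) (a (i + 1)) = z) :
    (∑ᶠ p : X × X, ∑ᶠ _ : T p.1 p.2, f p.1 p.2) = z * (8 * m + 1) := by
  obtain ⟨φ, h0, h1⟩ : ∃ φ : Lab m × Bool → X × X,
      (∀ i, φ (i, false) = (a i, b i)) ∧ ∀ i, φ (i, true) = (b i, a (i + 1)) :=
    ⟨fun z => bif z.2 then (b z.1, a (z.1 + 1)) else (a z.1, b z.1), fun _ => rfl, fun _ => rfl⟩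
  have hinj : Function.Injective φ := by
    rintro ⟨i, x⟩ ⟨j, y⟩ h
    cases x <;> cases y
    · rw [h0, h0] at h
      rw [ha (Prod.ext_iff.1 h).1]
    · rw [h0, h1] at h
      exact absurd (Prod.ext_iff.1 h).1 (hab i j)
    · rw [h1, h0] at h
      exact absurd (Prod.ext_iff.1 h).1.symm (hab j i)
    · rw [h1, h1] at h
      rw [hb (Prod.ext_iff.1 h).1]
  have hran : Set.range φ = {p | T p.1 p.2} := by
    ext ⟨p, q⟩
    constructor
    · rintro ⟨⟨i, x⟩, h⟩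
      refine (hT p q).2 ⟨i, ?_⟩
      cases x
      · rw [h0] at h
        exact Or.inl ⟨(Prod.ext_iff.1 h).1.symm, (Prod.ext_iff.1 h).2.symm⟩
      · rw [h1] at h
        exact Or.inr ⟨(Prod.ext_iff.1 h).1.symm, (Prod.ext_iff.1 h).2.symm⟩
    · intro h
      obtain ⟨i, ⟨h2, h3⟩ | ⟨h2, h3⟩⟩ := (hT p q).1 h
      · exact ⟨(i, false), by rw [h0, h2, h3]⟩
      · exact ⟨(i, true), by rw [h1, h2, h3]⟩
  have h2 : (∑ᶠ p : X × X, ∑ᶠ _ : T p.1 p.2, f p.1 p.2) =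
      ∑ᶠ p ∈ Set.range φ, (fun p : X × X => f p.1 p.2) p := by
    rw [hran]
    rfl
  have h3 : ∀ i : Lab m, f (φ (i, true)).1 (φ (i, true)).2 + f (φ (i, false)).1 (φ (i, false)).2 =
      z := by
    intro i
    rw [h0, h1]
    rw [← hf i]
    ring
  rw [h2, finsum_mem_range hinj, finsum_eq_sum_of_fintype, Fintype.sum_prod_type]
  simp only [Fintype.sum_bool, h3]
  rw [Finset.sum_const, Finset.card_univ, ZMod.card, nsmul_eq_mul]
  push_cast
  ring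

theorem finsum_ring' {X : Type} (T : X → X → Prop) (a b : Lab m → X)
    (ha : Function.Injective a) (hb : Function.Injective b) (hab : ∀ i j, a i ≠ b j)
    (hT : ∀ p q, T p q ↔ ∃ i, (q = a i ∧ p = b i) ∨ (q = b i ∧ p = a (i + 1)))
    (f : X → X → ℤ) (z : ℤ) (hf : ∀ i, f (b i) (a i) + f (a (i + 1)) (b i) = z) :
    (∑ᶠ p : X × X, ∑ᶠ _ : T p.1 p.2, f p.1 p.2) = z * (8 * m + 1) := by
  have h1 := finsum_ring (fun x y => T y x) a b ha hb hab (fun p q => hT q p)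
    (fun x y => f y x) z hf
  rw [← h1]
  exact (finsum_comp_equiv (Equiv.prodComm X X)
    (f := fun p : X × X => ∑ᶠ _ : T p.1 p.2, f p.1 p.2)).symm

theorem T_io (hm : 100 ≤ m) (g : Wm m) (p q : (Fine m k).V) :
    (Fine m k).T ((plane m).io k (Sum.inl g)) p q ↔
      if Even (UWW.len g) then ∃ i, (p = fE k g i ∧ q = fC k g i) ∨
        (p = fC k g i ∧ q = fE k g (i + 1))
      else ∃ i, (q = fE k g i ∧ p = fC k g i) ∨ (q = fC k g i ∧ p = fE k g (i + 1)) := by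
  have h0 : (Fine m k).T ((plane m).io k (Sum.inl g)) p q ↔
      ∃ y z, (plane m).T (Sum.inl g) y z ∧ p = (plane m).dir k (Sum.inl g) y ∧
        q = (plane m).dir k (Sum.inl g) z := Srf.link_io (plane_good hm) k (Sum.inl g) p q
  rw [h0]
  split_ifs with he
  · constructor
    · rintro ⟨y, z, h, rfl, rfl⟩
      obtain ⟨i, ⟨-, ⟨rfl, rfl⟩ | ⟨rfl, rfl⟩⟩ | ⟨h', -⟩⟩ := (T_inl hm g y z).1 h
      · exact ⟨i, Or.inl ⟨rfl, rfl⟩⟩
      · exact ⟨i, Or.inr ⟨rfl, rfl⟩⟩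
      · exact absurd he h'
    · rintro ⟨i, ⟨rfl, rfl⟩ | ⟨rfl, rfl⟩⟩
      · exact ⟨_, _, (T_inl hm g _ _).2 ⟨i, Or.inl ⟨he, Or.inl ⟨rfl, rfl⟩⟩⟩, rfl, rfl⟩
      · exact ⟨_, _, (T_inl hm g _ _).2 ⟨i, Or.inl ⟨he, Or.inr ⟨rfl, rfl⟩⟩⟩, rfl, rfl⟩
  · constructor
    · rintro ⟨y, z, h, rfl, rfl⟩
      obtain ⟨i, ⟨h', -⟩ | ⟨-, ⟨rfl, rfl⟩ | ⟨rfl, rfl⟩⟩⟩ := (T_inl hm g y z).1 h
      · exact absurd h' he
      · exact ⟨i, Or.inl ⟨rfl, rfl⟩⟩
      · exact ⟨i, Or.inr ⟨rfl, rfl⟩⟩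
    · rintro ⟨i, ⟨rfl, rfl⟩ | ⟨rfl, rfl⟩⟩
      · exact ⟨_, _, (T_inl hm g _ _).2 ⟨i, Or.inr ⟨he, Or.inl ⟨rfl, rfl⟩⟩⟩, rfl, rfl⟩
      · exact ⟨_, _, (T_inl hm g _ _).2 ⟨i, Or.inr ⟨he, Or.inr ⟨rfl, rfl⟩⟩⟩, rfl, rfl⟩

theorem rng_sum (hm : 100 ≤ m) (hk : 1 ≤ k) (g : Wm m) :
    (∑ᶠ p : (Fine m k).V × (Fine m k).V,
      (∑ᶠ _ : (Fine m k).T ((plane m).io k (Sum.inl g)) p.1 p.2, bet g p.1 p.2)) ≠ 0 := by
  have hS := plane_good hm
  have hadj : ∀ i, (plane m).Adj (Sum.inl g) (Sum.inr (sqv nW g i)) := fun i =>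
    (adj_centre hm (w := g) (x := g) (i := i) (by rw [sqv_eq]; simp)).1
  have ha : Function.Injective (fE k g) := fun i j h =>
    sg_inj (mul_left_cancel (Sum.inl_injective (Srf.dir_inj hS k (Sum.inl g) _ _
      (adj_edge hm g i) (adj_edge hm g j) h)))
  have hb : Function.Injective (fC k g) := fun i j h =>
    sq_inj hm g i j (Sum.inr_injective (Srf.dir_inj hS k (Sum.inl g) _ _ (hadj i) (hadj j) h))
  have hab : ∀ i j, fE k g i ≠ fC k g j := fun i j h =>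
    Sum.inl_ne_inr (Srf.dir_inj hS k (Sum.inl g) _ _ (adj_edge hm g i) (hadj j) h)
  by_cases he : Even (UWW.len g)
  · rw [finsum_ring ((Fine m k).T ((plane m).io k (Sum.inl g))) (fE k g) (fC k g) ha hb hab
      (fun p q => by rw [T_io hm g p q, if_pos he]) (bet g) 2 fun i => bet_two hm hk g i]
    omega
  · rw [finsum_ring' ((Fine m k).T ((plane m).io k (Sum.inl g))) (fE k g) (fC k g) ha hb hab
      (fun p q => by rw [T_io hm g p q, if_neg he]) (bet g) (-2) fun i => by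
        have h1 := bet_two hm hk g i
        rw [bet_swap g (fE k g i) (fC k g i), bet_swap g (fC k g i) (fE k g (i + 1))]
        omega]
    omega

end URW
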